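import Pool.Agent.MP_029391_gt.SL.Lower

/-!
The exact loss factor for simultaneous correspondences between `k` compact metric spaces.
-/

namespace Pool.Agent.Results.MP_029391_gt.SharpLoss

open Pool.Agent.MP_029391_gt.SL

/-- For `k ≥ 2`, the least constant `C` such that any `k` nonempty compact metric spaces admit a
subset `R` of their product all of whose pairwise projections are correspondences of distortion at
most `C` times the optimal distortion `2 d_GH` is `k - 1`. -/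
theorem result (k : ℕ) (hk : 2 ≤ k) :
    IsLeast {C : ℝ | ∀ (X : Fin k → Type) [∀ i, MetricSpace (X i)] [∀ i, CompactSpace (X i)]
        [∀ i, Nonempty (X i)], ∃ R : Set (∀ i, X i), ∀ i j, i ≠ j →
          IsCorrespondence ((fun x : ∀ i, X i => (x i, x j)) '' R) ∧
          distortion ((fun x : ∀ i, X i => (x i, x j)) '' R) ≤ C * (2 * dGH (X i) (X j))}
      ((k : ℝ) - 1) := by
  obtain ⟨n, rfl⟩ : ∃ n, k = n + 2 := ⟨k - 2, by omega⟩
  constructor
  · intro X _ _ _
    obtain ⟨R, hR⟩ := upper X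
    rw [Fintype.card_fin] at hR
    exact ⟨R, fun i j _ => hR i j⟩
  · intro C hC
    by_contra hlt
    rw [not_le] at hlt
    obtain ⟨R, hR⟩ := hC (V (n + 2))
    have key : ∀ i j : Fin (n + 2), i ≠ j → 2 * dGH (V (n + 2) i) (V (n + 2) j) ≤ 1 →
        ∀ r ∈ R, ∀ r' ∈ R,
          |zd (n + 2) i (r i) (r' i) - zd (n + 2) j (r j) (r' j)| < n + 1 := by
      intro i j hij h1 r hr r' hr'
      have h2 := (le_distortion ((fun x : ∀ i, V (n + 2) i => (x i, x j)) '' R)
        (p := (r i, r j)) (q := (r' i, r' j)) ⟨r, hr, rfl⟩ ⟨r', hr', rfl⟩).trans (hR i j hij).2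
      have h3 : 0 ≤ 2 * dGH (V (n + 2) i) (V (n + 2) j) := two_dGH_nonneg
      have h4 : C * (2 * dGH (V (n + 2) i) (V (n + 2) j)) < n + 1 := by
        push_cast at hlt
        have : (0 : ℝ) ≤ n := by positivity
        by_cases hC0 : 0 ≤ C
        · nlinarith
        · nlinarith
      have h5 := h2.trans_lt h4
      rw [dist_eq, dist_eq] at h5
      exact_mod_cast h5
    refine no_better n R (fun i x => ?_) (fun i => ?_) ?_
    · obtain ⟨j, hj⟩ := exists_ne i
      obtain ⟨y, r, hr, e⟩ := (hR i j hj.symm).1.1 x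
      exact ⟨r, hr, congrArg Prod.fst e⟩
    · exact key i.castSucc i.succ (Fin.castSucc_lt_succ).ne
        (opt_le _ _ (Equiv.refl (Bool × Fin (n + 2 + 1))) fun x y => zd_step x y)
    · exact key 0 (Fin.last _) (Fin.last_pos).ne
        (opt_le _ _ (Equiv.prodCongr Equiv.boolNot (Equiv.refl (Fin (n + 2 + 1))))
          fun x y => zd_flip x y)

/-- The posed question, answered in the negative: three spaces need not admit a relation whose
three projections are optimal correspondences. -/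
theorem posed_question_fails :
    ¬ (∀ (X₁ X₂ X₃ : Type) [MetricSpace X₁] [MetricSpace X₂] [MetricSpace X₃]
        [CompactSpace X₁] [CompactSpace X₂] [CompactSpace X₃]
        [Nonempty X₁] [Nonempty X₂] [Nonempty X₃],
        ∃ R : Set (X₁ × X₂ × X₃),
          (IsCorrespondence ((fun t : X₁ × X₂ × X₃ => (t.1, t.2.1)) '' R) ∧
            distortion ((fun t : X₁ × X₂ × X₃ => (t.1, t.2.1)) '' R) = 2 * dGH X₁ X₂) ∧
          (IsCorrespondence ((fun t : X₁ × X₂ × X₃ => (t.1, t.2.2)) '' R) ∧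
            distortion ((fun t : X₁ × X₂ × X₃ => (t.1, t.2.2)) '' R) = 2 * dGH X₁ X₃) ∧
          (IsCorrespondence ((fun t : X₁ × X₂ × X₃ => (t.2.1, t.2.2)) '' R) ∧
            distortion ((fun t : X₁ × X₂ × X₃ => (t.2.1, t.2.2)) '' R) = 2 * dGH X₂ X₃)) := by
  intro h
  have key : ((3 : ℕ) : ℝ) - 1 ≤ 1 := (result 3 (by norm_num)).2 (by
    intro X _ _ _
    obtain ⟨R, ⟨c01, d01⟩, ⟨c02, d02⟩, ⟨c12, d12⟩⟩ := h (X 0) (X 1) (X 2)
    let S : Set (∀ i, X i) := {x | (x 0, x 1, x 2) ∈ R}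
    have lift : ∀ t ∈ R, ∃ x ∈ S, (x 0, x 1, x 2) = t := fun t ht =>
      ⟨Fin.cons t.1 (Fin.cons t.2.1 (Fin.cons t.2.2 finZeroElim)), ht, rfl⟩
    have full : ∀ i (z : X i), ∃ x ∈ S, x i = z := by
      intro i z
      fin_cases i
      · obtain ⟨y, t, ht, e⟩ := c01.1 z
        obtain ⟨x, hx, rfl⟩ := lift t ht
        exact ⟨x, hx, congrArg Prod.fst e⟩
      · obtain ⟨y, t, ht, e⟩ := c01.2 z
        obtain ⟨x, hx, rfl⟩ := lift t ht
        exact ⟨x, hx, congrArg Prod.snd e⟩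
      · obtain ⟨y, t, ht, e⟩ := c02.2 z
        obtain ⟨x, hx, rfl⟩ := lift t ht
        exact ⟨x, hx, congrArg Prod.snd e⟩
    have b01 : ∀ x ∈ S, ∀ y ∈ S, |dist (x 0) (y 0) - dist (x 1) (y 1)| ≤ 2 * dGH (X 0) (X 1) :=
      fun x hx y hy => d01 ▸ le_distortion _ (p := (x 0, x 1)) (q := (y 0, y 1))
        ⟨_, hx, rfl⟩ ⟨_, hy, rfl⟩
    have b02 : ∀ x ∈ S, ∀ y ∈ S, |dist (x 0) (y 0) - dist (x 2) (y 2)| ≤ 2 * dGH (X 0) (X 2) :=
      fun x hx y hy => d02 ▸ le_distortion _ (p := (x 0, x 2)) (q := (y 0, y 2))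
        ⟨_, hx, rfl⟩ ⟨_, hy, rfl⟩
    have b12 : ∀ x ∈ S, ∀ y ∈ S, |dist (x 1) (y 1) - dist (x 2) (y 2)| ≤ 2 * dGH (X 1) (X 2) :=
      fun x hx y hy => d12 ▸ le_distortion _ (p := (x 1, x 2)) (q := (y 1, y 2))
        ⟨_, hx, rfl⟩ ⟨_, hy, rfl⟩
    have bound : ∀ i j, i ≠ j → ∀ x ∈ S, ∀ y ∈ S,
        |dist (x i) (y i) - dist (x j) (y j)| ≤ 2 * dGH (X i) (X j) := by
      intro i j hij x hx y hy
      fin_cases i <;> fin_cases j
      · exact absurd rfl hij
      · exact b01 x hx y hy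
      · exact b02 x hx y hy
      · exact (abs_sub_comm _ _).trans_le ((b01 x hx y hy).trans dGH_comm_le)
      · exact absurd rfl hij
      · exact b12 x hx y hy
      · exact (abs_sub_comm _ _).trans_le ((b02 x hx y hy).trans dGH_comm_le)
      · exact (abs_sub_comm _ _).trans_le ((b12 x hx y hy).trans dGH_comm_le)
      · exact absurd rfl hij
    refine ⟨S, fun i j hij => ⟨⟨fun z => ?_, fun z => ?_⟩, ?_⟩⟩
    · obtain ⟨x, hx, rfl⟩ := full i z
      exact ⟨x j, x, hx, rfl⟩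
    · obtain ⟨x, hx, rfl⟩ := full j z
      exact ⟨x i, x, hx, rfl⟩
    · rw [one_mul]
      refine distortion_le _ two_dGH_nonneg ?_
      rintro _ ⟨x, hx, rfl⟩ _ ⟨y, hy, rfl⟩
      exact bound i j hij x hx y hy)
  norm_num at key

end Pool.Agent.Results.MP_029391_gt.SharpLoss
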